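import Pool.Agent.helper33.CVX.Spec

set_option autoImplicit false

namespace Pool.Agent.CVX

open MvPolynomial

theorem PDV_mdeg {ι : Type} [DecidableEq ι] (n : ι → ℕ) (m : Vr n →₀ ℕ) (i : ι) (a : Fin (n i + 1))
    (l : ι) : mdeg n (m + Finsupp.single ⟨i, a⟩ 1) l = mdeg n m l + if l = i then 1 else 0 := by
  classical
  unfold mdeg
  simp only [Finsupp.add_apply, Finset.sum_add_distrib]
  congr 1
  by_cases h : l = i
  · subst h
    rw [if_pos rfl, Finset.sum_eq_single a]
    · rw [Finsupp.single_eq_same]
    · intro b _ hb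
      rw [Finsupp.single_apply, if_neg]
      intro h
      apply hb
      have := (Sigma.mk.inj_iff.1 h).2
      exact (eq_of_heq this).symm
    · intro h
      exact absurd (Finset.mem_univ a) h
  · rw [if_neg h]
    refine Finset.sum_eq_zero fun b _ => ?_
    rw [Finsupp.single_apply, if_neg]
    intro h1
    exact h (Sigma.mk.inj_iff.1 h1).1.symm

theorem PDV : PDV_stmt := by
  intro ι _ n d F hF i a m hm l
  rw [mem_support_iff, coeff_pderiv] at hm
  have h1 : m + Finsupp.single ⟨i, a⟩ 1 ∈ F.support := mem_support_iff.2 (left_ne_zero_of_mul hm)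
  have h2 := hF _ h1 l
  rw [PDV_mdeg] at h2
  show mdeg n m l = if l = i then d l - 1 else d l
  split_ifs at h2 ⊢ with h
  · omega
  · omega

end Pool.Agent.CVX
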